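import Mathlib

/-!
The power sums of a power series: `X F' / F`.
-/

set_option autoImplicit false
set_option linter.all false
set_option maxHeartbeats 1000000

open PowerSeries

namespace Pool.Agent.Y701.QF

variable {R : Type*} [Field R]

/-- `X F'` -/
noncomputable def theta (F : PowerSeries R) : PowerSeries R :=
  PowerSeries.mk fun n => (n : R) * coeff n F

theorem coeff_theta (n : ℕ) (F : PowerSeries R) : coeff n (theta F) = n * coeff n F := by
  rw [theta, coeff_mk]

theorem theta_mul (F G : PowerSeries R) : theta (F * G) = theta F * G + F * theta G := by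
  ext n
  rw [coeff_theta, map_add, coeff_mul, coeff_mul, coeff_mul, Finset.mul_sum,
    ← Finset.sum_add_distrib]
  refine Finset.sum_congr rfl fun p hp => ?_
  rw [Finset.HasAntidiagonal.mem_antidiagonal] at hp
  rw [coeff_theta, coeff_theta, ← hp]
  push_cast
  ring

theorem theta_one : theta (1 : PowerSeries R) = 0 := by
  ext n
  rw [coeff_theta, coeff_one]
  split_ifs with h
  · rw [h]; simp
  · simp

/-- `X F' / F` -/
noncomputable def pw (F : PowerSeries R) : PowerSeries R := theta F * F⁻¹

theorem pw_spec {F : PowerSeries R} (hF : constantCoeff F ≠ 0) : pw F * F = theta F := by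
  rw [pw, mul_assoc, PowerSeries.inv_mul_cancel F hF, mul_one]

theorem ne_zero_of {F : PowerSeries R} (hF : constantCoeff F ≠ 0) : F ≠ 0 := by
  rintro rfl
  exact hF (map_zero _)

theorem pw_unique {F W : PowerSeries R} (hF : constantCoeff F ≠ 0) (h : W * F = theta F) :
    pw F = W := by
  apply mul_right_cancel₀ (ne_zero_of hF)
  rw [pw_spec hF, h]

theorem pw_mul {F G : PowerSeries R} (hF : constantCoeff F ≠ 0) (hG : constantCoeff G ≠ 0) :
    pw (F * G) = pw F + pw G := by
  apply pw_unique
  · rw [map_mul]; exact mul_ne_zero hF hG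
  · rw [theta_mul, ← pw_spec hF, ← pw_spec hG]
    ring

theorem pw_one : pw (1 : PowerSeries R) = 0 := by
  rw [pw, theta_one, zero_mul]

theorem constantCoeff_prod_ne {ι : Type*} (s : Finset ι) (F : ι → PowerSeries R)
    (h : ∀ i ∈ s, constantCoeff (F i) ≠ 0) : constantCoeff (∏ i ∈ s, F i) ≠ 0 := by
  rw [map_prod]
  exact Finset.prod_ne_zero_iff.2 h

theorem pw_prod {ι : Type*} (s : Finset ι) (F : ι → PowerSeries R)
    (h : ∀ i ∈ s, constantCoeff (F i) ≠ 0) : pw (∏ i ∈ s, F i) = ∑ i ∈ s, pw (F i) := by
  classical
  induction s using Finset.induction_on with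
  | empty => simp [pw_one]
  | insert a s ha ih =>
    rw [Finset.prod_insert ha, Finset.sum_insert ha, pw_mul (h a (Finset.mem_insert_self a s))
      (constantCoeff_prod_ne s F fun i hi => h i (Finset.mem_insert_of_mem hi)),
      ih fun i hi => h i (Finset.mem_insert_of_mem hi)]

theorem coeff_pw_rescale (u : R) {F : PowerSeries R} (hF : constantCoeff F ≠ 0) (n : ℕ) :
    coeff n (pw (rescale u F)) = u ^ n * coeff n (pw F) := by
  have h1 : theta (rescale u F) = rescale u (theta F) := by
    ext m
    rw [coeff_theta, coeff_rescale, coeff_rescale, coeff_theta]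
    ring
  have h2 : constantCoeff (rescale u F) ≠ 0 := by
    rw [← coeff_zero_eq_constantCoeff_apply, coeff_rescale, pow_zero, one_mul,
      coeff_zero_eq_constantCoeff_apply]
    exact hF
  have h3 : pw (rescale u F) = rescale u (pw F) := by
    apply pw_unique h2
    rw [h1, ← pw_spec hF, map_mul]
  rw [h3, coeff_rescale]

theorem coeff_zero_pw (F : PowerSeries R) : coeff 0 (pw F) = 0 := by
  rw [pw, coeff_mul]
  simp [coeff_theta]

/-- a series without terms of degree between `0` and `N` -/
theorem coeff_pw_gap {F : PowerSeries R} (hF : constantCoeff F = 1) {N : ℕ}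
    (h : ∀ i, 0 < i → i < N → coeff i F = 0) : coeff N (pw F) = N * coeff N F := by
  rw [pw, coeff_mul]
  rw [Finset.sum_eq_single (N, 0)]
  · rw [coeff_theta, coeff_zero_eq_constantCoeff_apply, PowerSeries.constantCoeff_inv, hF]
    simp
  · rintro ⟨i, j⟩ hij hne
    rw [Finset.HasAntidiagonal.mem_antidiagonal] at hij
    have hj : j ≠ 0 := by
      rintro rfl
      apply hne
      rw [show i = N by simpa using hij]
    have hi : i < N := by
      simp only at hij
      omega
    show coeff i (theta F) * _ = 0
    rw [coeff_theta]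
    rcases Nat.eq_zero_or_pos i with h0 | h0
    · rw [h0]; simp
    · rw [h i h0 hi]; simp
  · intro h1
    exact absurd (Finset.HasAntidiagonal.mem_antidiagonal.2 (add_zero N)) h1

/-- the power sums determine the series -/
theorem eq_of_pw [CharZero R] {F G : PowerSeries R} (hF : constantCoeff F = 1)
    (hG : constantCoeff G = 1) (h : ∀ n, n ≠ 0 → coeff n (pw F) = coeff n (pw G)) : F = G := by
  have hF' : constantCoeff F ≠ 0 := by rw [hF]; exact one_ne_zero
  have hG' : constantCoeff G ≠ 0 := by rw [hG]; exact one_ne_zero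
  have h1 : pw F = pw G := by
    ext n
    by_cases hn : n = 0
    · rw [hn, coeff_zero_pw, coeff_zero_pw]
    · exact h n hn
  have h2 : theta (F * G⁻¹) = 0 := by
    have hGi : constantCoeff G⁻¹ ≠ 0 := by
      rw [PowerSeries.constantCoeff_inv, hG]; simp
    have h3 := pw_mul hG' hGi
    rw [PowerSeries.mul_inv_cancel G hG', pw_one] at h3
    have h4 := pw_mul hF' hGi
    rw [h1, ← h3] at h4
    have h5 := pw_spec (F := F * G⁻¹) (by rw [map_mul]; exact mul_ne_zero hF' hGi)
    rw [h4, zero_mul] at h5
    exact h5.symm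
  have h3 : F * G⁻¹ = 1 := by
    ext n
    rw [coeff_one]
    split_ifs with hn
    · rw [hn, coeff_zero_eq_constantCoeff_apply, map_mul, hF, PowerSeries.constantCoeff_inv, hG]
      simp
    · have h4 := congrArg (coeff n) h2
      rw [coeff_theta, map_zero] at h4
      exact (mul_eq_zero.1 h4).resolve_left (Nat.cast_ne_zero.2 hn)
  calc F = F * (G⁻¹ * G) := by rw [PowerSeries.inv_mul_cancel G hG', mul_one]
  _ = G := by rw [← mul_assoc, h3, one_mul]

/-- the power sums of `1 - c X ^ d` -/
theorem coeff_pw_lin {d : ℕ} (hd : d ≠ 0) (c : R) {n : ℕ} (hn : n ≠ 0) :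
    coeff n (pw (1 - C c * X ^ d : PowerSeries R)) =
      if d ∣ n then -((d : R) * c ^ (n / d)) else 0 := by
  have hc : constantCoeff (1 - C c * X ^ d : PowerSeries R) = 1 := by
    rw [map_sub, map_one, map_mul, map_pow, constantCoeff_X, zero_pow hd, mul_zero, sub_zero]
  set W : PowerSeries R := PowerSeries.mk fun n => if n ≠ 0 ∧ d ∣ n then -((d : R) * c ^ (n / d))
    else 0 with hW
  have h1 : pw (1 - C c * X ^ d : PowerSeries R) = W := by
    apply pw_unique (by rw [hc]; exact one_ne_zero)
    ext m
    rw [mul_sub, mul_one, map_sub, coeff_theta, ← mul_assoc, mul_comm W, mul_assoc, coeff_C_mul,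
      coeff_mul_X_pow', map_sub, coeff_one, coeff_C_mul, coeff_X_pow, hW, coeff_mk]
    by_cases hm : m = 0
    · subst hm
      have : ¬ d ≤ 0 := by omega
      simp [this]
    · rw [if_neg hm]
      by_cases hdm : d ≤ m
      · rw [if_pos hdm, coeff_mk]
        by_cases hdv : d ∣ m
        · obtain ⟨j, rfl⟩ := hdv
          have hj : j ≠ 0 := by
            rintro rfl
            simp at hm
          rw [if_pos ⟨hm, dvd_mul_right _ _⟩, Nat.mul_div_cancel_left _ (Nat.pos_of_ne_zero hd)]
          by_cases hj1 : j = 1
          · subst hj1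
            simp
          · have e1 : d * j - d = d * (j - 1) := by
              rw [Nat.mul_sub, mul_one]
            have e2 : d * j ≠ d := by
              intro h
              exact hj1 (Nat.eq_of_mul_eq_mul_left (Nat.pos_of_ne_zero hd) (by rw [h, mul_one]))
            have e3 : d * (j - 1) ≠ 0 := mul_ne_zero hd (by omega)
            rw [e1, if_pos ⟨e3, dvd_mul_right _ _⟩,
              Nat.mul_div_cancel_left _ (Nat.pos_of_ne_zero hd), if_neg e2]
            obtain ⟨i, rfl⟩ : ∃ i, j = i + 1 := ⟨j - 1, by omega⟩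
            rw [Nat.add_sub_cancel, pow_succ]
            ring
        · have e1 : ¬ d ∣ m - d := by
            intro h
            apply hdv
            have := dvd_add h (dvd_refl d)
            rwa [Nat.sub_add_cancel hdm] at this
          have e2 : m ≠ d := by
            rintro rfl
            exact hdv (dvd_refl _)
          rw [if_neg (fun h => hdv h.2), if_neg (fun h => e1 h.2), if_neg e2]
          ring
      · have e1 : ¬ d ∣ m := fun h => hdm (Nat.le_of_dvd (Nat.pos_of_ne_zero hm) h)
        have e2 : m ≠ d := by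
          rintro rfl
          exact hdm le_rfl
        rw [if_neg hdm, if_neg (fun h => e1 h.2), if_neg e2]
        ring
  rw [h1, hW, coeff_mk]
  by_cases hdv : d ∣ n
  · rw [if_pos ⟨hn, hdv⟩, if_pos hdv]
  · rw [if_neg (fun h => hdv h.2), if_neg hdv]

/-- the power sums of the product of the rescaled series over the roots of unity -/
theorem coeff_pw_unity {F : PowerSeries R} (hF : constantCoeff F ≠ 0) {N : ℕ} {ζ : R}
    (hζ : ζ ^ N = 1) :
    coeff N (pw (∏ i ∈ Finset.range N, rescale (ζ ^ i) F)) = N * coeff N (pw F) := by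
  rw [pw_prod]
  · rw [map_sum, Finset.sum_congr rfl fun i _ => coeff_pw_rescale (ζ ^ i) hF N]
    have : ∀ i ∈ Finset.range N, (ζ ^ i) ^ N * coeff N (pw F) = coeff N (pw F) := by
      intro i _
      rw [← pow_mul, mul_comm i N, pow_mul, hζ, one_pow, one_mul]
    rw [Finset.sum_congr rfl this, Finset.sum_const, Finset.card_range, nsmul_eq_mul]
  · intro i _
    rw [← coeff_zero_eq_constantCoeff_apply, coeff_rescale, pow_zero, one_mul,
      coeff_zero_eq_constantCoeff_apply]
    exact hF

end Pool.Agent.Y701.QF
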