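import Pool.Agent.Y701.CB.Mult
import Pool.Agent.W309.RF.ZetaR
import Pool.Agent.Y701.QF.Pw

/-!
The power sums of the `L`-function of a curve over `k(t)`: the extensions of the constants.
-/

set_option autoImplicit false
set_option linter.all false
set_option maxHeartbeats 1000000

open Polynomial FF Module

namespace Pool.Agent.Y701.QF

open Pool.Agent.W343.BSD Pool.Agent.W309.RF Pool.Agent.Y701.CB

section ext

variable (k k' : Type) [Field k] [Field k'] [Algebra k k']

theorem ratHom_inj : Function.Injective
    ((algebraMap k'[X] (RatFunc k')).comp (Polynomial.mapRingHom (algebraMap k k'))) :=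
  (IsFractionRing.injective k'[X] (RatFunc k')).comp
    (Polynomial.map_injective _ (algebraMap k k').injective)

/-- the inclusion of `k(t)` in `k'(t)` -/
noncomputable def ratHom : RatFunc k →+* RatFunc k' :=
  IsFractionRing.lift (ratHom_inj k k')

theorem ratHom_A (p : k[X]) : ratHom k k' (A p) = A (p.map (algebraMap k k')) :=
  IsFractionRing.lift_algebraMap (ratHom_inj k k') p

/-- `k'(t)` as an algebra over `k(t)` -/
@[reducible] noncomputable def ratAlg : Algebra (RatFunc k) (RatFunc k') :=
  (ratHom k k').toAlgebra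

theorem tower1 : @IsScalarTower k (RatFunc k) (RatFunc k') _ (ratAlg k k').toSMul _ := by
  letI := ratAlg k k'
  refine IsScalarTower.of_algebraMap_eq fun x => ?_
  show _ = ratHom k k' (algebraMap k (RatFunc k) x)
  rw [← A_C, ratHom_A, Polynomial.map_C, A_C]
  rfl

theorem finrank_rat [FiniteDimensional k k'] :
    @finrank (RatFunc k) (RatFunc k') _ _ (ratAlg k k').toModule = finrank k k' := by
  letI := ratAlg k k'
  letI : Algebra k[X] k'[X] := Polynomial.algebra k k'
  have h1 : finrank k[X] k'[X] = finrank k k' := by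
    have h := (inferInstance : Algebra.IsPushout k k[X] k' k'[X]).out
    rw [← h.equiv.finrank_eq, Module.finrank_baseChange]
  have e1 : IsScalarTower k[X] k'[X] (RatFunc k') := inferInstance
  have e2 : IsScalarTower k[X] (RatFunc k) (RatFunc k') := by
    refine IsScalarTower.of_algebraMap_eq fun x => ?_
    show _ = ratHom k k' (A x)
    rw [ratHom_A]
    rfl
  have : Algebra.IsAlgebraic k[X] k'[X] := by
    have : Module.Finite k[X] k'[X] := by
      have h := (inferInstance : Algebra.IsPushout k k[X] k' k'[X]).out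
      exact Module.Finite.equiv h.equiv
    exact Algebra.IsAlgebraic.of_finite k[X] k'[X]
  rw [← h1]
  exact (IsFractionRing.finrank_eq k[X] (RatFunc k) k'[X] (RatFunc k'))

end ext

section one

variable {k K : Type} [Field k] [Finite k] [Field K] [Algebra k K] [FF.IsFF k K]

theorem constantCoeff_lfun (a b : K) : PowerSeries.constantCoeff (Lfun k a b) = 1 := by
  rw [← PowerSeries.coeff_zero_eq_constantCoeff_apply]
  unfold Lfun
  rw [coeff_eulerProd (fun n => places_fin n)]
  have : (places_fin (k := k) (K := K) 0).toFinset = ∅ := by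
    rw [Finset.eq_empty_iff_forall_notMem]
    intro v hv
    rw [Set.Finite.mem_toFinset] at hv
    have h1 : v.deg ≤ 0 := hv
    have := deg_pos' v
    omega
  rw [this, Finset.prod_empty, PowerSeries.coeff_zero_eq_constantCoeff_apply, map_one]

theorem coeff_one_prod {ι : Type*} (s : Finset ι) (F : ι → PowerSeries ℤ)
    (h : ∀ i ∈ s, PowerSeries.constantCoeff (F i) = 1) :
    PowerSeries.coeff 1 (∏ i ∈ s, F i) = ∑ i ∈ s, PowerSeries.coeff 1 (F i) := by
  classical
  induction s using Finset.induction_on with
  | empty =>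
    rw [Finset.prod_empty, Finset.sum_empty, PowerSeries.coeff_one, if_neg one_ne_zero]
  | insert a s ha ih =>
    rw [Finset.prod_insert ha, Finset.sum_insert ha, PowerSeries.coeff_one_mul,
      ih fun i hi => h i (Finset.mem_insert_of_mem hi), h a (Finset.mem_insert_self a s), map_prod,
      Finset.prod_eq_one fun i hi => h i (Finset.mem_insert_of_mem hi)]
    ring

theorem coeff_one_lfun (a b : K) : PowerSeries.coeff 1 (Lfun k a b) =
    ∑ v ∈ (places_fin (k := k) (K := K) 1).toFinset, trace v a b := by
  unfold Lfun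
  have h0 : ∀ v : Place k K, PowerSeries.constantCoeff (locFactor v a b : PowerSeries ℤ) = 1 := by
    intro v
    have h1 := const_locFactor v a b
    have h2 : (PowerSeries.X : PowerSeries ℤ) ∣ (locFactor v a b : PowerSeries ℤ) - 1 :=
      (dvd_pow_self _ (deg_pos' v).ne').trans h1
    rw [PowerSeries.X_dvd_iff, map_sub, map_one, sub_eq_zero] at h2
    exact h2
  have h1 : ∀ v : Place k K, PowerSeries.constantCoeff
      (PowerSeries.invOfUnit (locFactor v a b : PowerSeries ℤ) 1) = 1 := by
    intro v
    rw [PowerSeries.constantCoeff_invOfUnit]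
    simp
  rw [coeff_eulerProd (fun n => places_fin n), coeff_one_prod _ _ fun v _ => h1 v]
  refine Finset.sum_congr rfl fun v hv => ?_
  rw [Set.Finite.mem_toFinset] at hv
  have hd : v.deg = 1 := le_antisymm hv (deg_pos' v)
  have h2 := inv_locFactor v a b
  have h3 := congrArg (PowerSeries.coeff 1) h2
  rw [PowerSeries.coeff_one_mul, h0, h1, mul_one, mul_one, PowerSeries.coeff_one,
    if_neg one_ne_zero] at h3
  have h4 : PowerSeries.coeff 1 (locFactor v a b : PowerSeries ℤ) = -trace v a b := by
    rw [Polynomial.coeff_coe]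
    unfold locFactor
    rw [hd]
    split_ifs
    · simp [Polynomial.coeff_one, Polynomial.coeff_X, Polynomial.coeff_X_pow]
    · simp [Polynomial.coeff_one, Polynomial.coeff_X]
  rw [h4] at h3
  linarith

end one

section pws

variable {k : Type} [Field k] [Finite k] (k' : Type) [Field k'] [Finite k'] [Algebra k k']

/-- the power sums of the `L`-function -/
theorem coeff_pw_lfun (h6 : (6 : k) ≠ 0) {a b : RatFunc k} (hΔ : 4 * a ^ 3 + 27 * b ^ 2 ≠ 0) :
    PowerSeries.coeff (finrank k k') (pw (PowerSeries.map (Int.castRingHom ℂ) (Lfun k a b))) =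
      ((PowerSeries.coeff 1 (Lfun k' (ratHom k k' a) (ratHom k k' b)) : ℤ) : ℂ) := by
  letI := ratAlg k k'
  have i1 : IsScalarTower k (RatFunc k) (RatFunc k') := tower1 k k'
  have i2 : FiniteDimensional k k' := Module.Finite.of_finite
  have hfr : finrank (RatFunc k) (RatFunc k') = finrank k k' := finrank_rat k k'
  have i3 : FiniteDimensional (RatFunc k) (RatFunc k') := Module.finite_of_finrank_pos (by
    rw [hfr]; exact finrank_pos)
  have i4 : FF.IsFF k (RatFunc k') := isFF_of_finite (K := RatFunc k)
  have hr0 : finrank k k' ≠ 0 := finrank_pos.ne'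
  obtain ⟨μ, θ, hμ, hm, hroot, hdeg⟩ := exists_gen (k := k) (k' := k') (K' := RatFunc k')
  have hζ := Complex.isPrimitiveRoot_exp μ.natDegree hμ.natDegree_pos.ne'
  have h1 := base_change (K' := RatFunc k') h6 hμ hm const_rat hroot (hfr.trans hdeg.symm) hΔ hζ
  rw [hdeg] at h1 hζ
  have hc : PowerSeries.constantCoeff (PowerSeries.map (Int.castRingHom ℂ) (Lfun k a b)) ≠ 0 := by
    rw [← PowerSeries.coeff_zero_eq_constantCoeff_apply, PowerSeries.coeff_map,
      PowerSeries.coeff_zero_eq_constantCoeff_apply, constantCoeff_lfun]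
    simp
  have h2 := coeff_pw_unity hc (N := finrank k k') hζ.pow_eq_one
  rw [← h1, lfun_rel (k := k) (k' := k') hr0 (algebraMap (RatFunc k) (RatFunc k') a)
    (algebraMap (RatFunc k) (RatFunc k') b)] at h2
  rw [coeff_pw_gap] at h2
  · have h3 : ((finrank k k' : ℕ) : ℂ) ≠ 0 := Nat.cast_ne_zero.2 hr0
    have h4 := mul_left_cancel₀ h3 h2
    rw [← h4, PowerSeries.coeff_map, PowerSeries.coeff_expand, if_pos (dvd_refl _),
      Nat.div_self (Nat.pos_of_ne_zero hr0)]
    rfl
  · rw [← PowerSeries.coeff_zero_eq_constantCoeff_apply, PowerSeries.coeff_map,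
      PowerSeries.coeff_expand, if_pos (dvd_zero _), Nat.zero_div,
      PowerSeries.coeff_zero_eq_constantCoeff_apply, constantCoeff_lfun]
    simp
  · intro i hi hiN
    rw [PowerSeries.coeff_map, PowerSeries.coeff_expand, if_neg, map_zero]
    intro h
    have := Nat.le_of_dvd hi h
    omega

end pws

end Pool.Agent.Y701.QF
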