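import Pool.Agent.Y701.QF.Const

/-!
The places of degree one of the rational function field.
-/

set_option autoImplicit false
set_option linter.all false
set_option maxHeartbeats 1000000

open Polynomial FF Module

namespace Pool.Agent.Y701.QF

open Pool.Agent.W343.BSD Pool.Agent.W309.RF Pool.Agent.Y701.CB
open Pool.Agent.H525R3.FFp hiding phi
open Pool.Agent.H82R3.EK (card_points)

variable {k : Type} [Field k] [Finite k]

theorem ord_inf_A {p : k[X]} (hp : p ≠ 0) : (infty k).ord (A p) = -(p.natDegree : ℤ) :=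
  inf_ord' infty_X hp

theorem exists_pt (τ : k) : ∃ v : Place k (RatFunc k), v ≠ infty k ∧ v.deg = 1 ∧
    0 < v.ord (A (X - C τ)) := by
  classical
  have hne : (X - C τ : k[X]) ≠ 0 := X_sub_C_ne_zero τ
  have hinf := ord_inf_A (k := k) hne
  rw [natDegree_X_sub_C] at hinf
  have hfin : ∀ w : Place k (RatFunc k), 0 < w.ord (A (X - C τ)) → w ≠ infty k := by
    rintro w hw rfl
    rw [hinf] at hw
    omega
  obtain ⟨v, hv⟩ : ∃ v : Place k (RatFunc k), 0 < v.ord (A (X - C τ)) := by
    by_contra hcon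
    push Not at hcon
    have h0 : ddeg (divisor k (A (X - C τ))) = 0 := ddeg_divisor _
    have hle : divisor k (A (X - C τ)) ≤ Finsupp.single (infty k) (-1 : ℤ) := by
      intro w
      rw [divisor_apply, Finsupp.single_apply]
      split_ifs with h
      · subst h; rw [hinf]; norm_num
      · exact hcon w
    have h2 := ddeg_mono hle
    rw [ddeg_single, h0, inf_deg infty_X] at h2
    norm_num at h2
  refine ⟨v, hfin v hv, ?_, hv⟩
  obtain ⟨π', hm, hirr, hord, hnn, hdvd, hdeg⟩ := fin_exists (fin_of_ne (hfin v hv))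
  have hass : Associated π' (X - C τ) := hirr.associated_of_dvd (irreducible_X_sub_C τ)
    ((hdvd _ hne).1 hv)
  rw [hdeg, natDegree_eq_of_degree_eq (degree_eq_degree_of_associated hass), natDegree_X_sub_C]

/-- the place of `t = τ` -/
noncomputable def pt (τ : k) : Place k (RatFunc k) := (exists_pt τ).choose

theorem pt_ne (τ : k) : pt τ ≠ infty k := (exists_pt τ).choose_spec.1

theorem pt_deg (τ : k) : (pt τ).deg = 1 := (exists_pt τ).choose_spec.2.1

theorem pt_ord (τ : k) : 0 < (pt τ).ord (A (X - C τ)) := (exists_pt τ).choose_spec.2.2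

theorem pt_fin (τ : k) : 0 ≤ (pt τ).ord RatFunc.X := fin_of_ne (pt_ne τ)

theorem pt_inj : Function.Injective (pt (k := k)) := by
  intro τ σ h
  obtain ⟨π', hm, hirr, hord, hnn, hdvd, hdeg⟩ := fin_exists (pt_fin τ)
  have h1 := (hdvd _ (X_sub_C_ne_zero τ)).1 (pt_ord τ)
  have h2 := (hdvd _ (X_sub_C_ne_zero σ)).1 (by rw [h]; exact pt_ord σ)
  have h3 : Associated (X - C τ) (X - C σ) :=
    (hirr.associated_of_dvd (irreducible_X_sub_C τ) h1).symm.trans
      (hirr.associated_of_dvd (irreducible_X_sub_C σ) h2)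
  have h4 := eq_of_monic_of_associated (monic_X_sub_C τ) (monic_X_sub_C σ) h3
  have h5 := congrArg (Polynomial.eval τ) h4
  simp only [eval_sub, eval_X, eval_C, sub_self] at h5
  exact (sub_eq_zero.1 h5.symm)

theorem pt_surj {v : Place k (RatFunc k)} (hv : v ≠ infty k) (hd : v.deg = 1) :
    ∃ τ : k, pt τ = v := by
  obtain ⟨π, hm, hirr, hord, hnn, hdvd, hdeg⟩ := fin_exists (fin_of_ne hv)
  rw [hd] at hdeg
  have h1 : π = X - C (-π.coeff 0) := by
    have h2 : π = C (π.coeff 1) * X + C (π.coeff 0) := eq_X_add_C_of_natDegree_le_one hdeg.ge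
    have h3 : π.coeff 1 = 1 := by
      have := hm.coeff_natDegree
      rwa [← hdeg] at this
    rw [h3, C_1, one_mul] at h2
    rw [C_neg, sub_neg_eq_add]
    exact h2
  refine ⟨-π.coeff 0, fin_unique (pt_fin _) (fin_of_ne hv) (irreducible_X_sub_C (-π.coeff 0))
    (pt_ord _) ?_⟩
  rw [← h1, hord]
  norm_num

/-- the sum over the places of degree one -/
theorem sum_deg_one [Fintype k] (f : Place k (RatFunc k) → ℤ) :
    ∑ v ∈ (places_fin (k := k) (K := RatFunc k) 1).toFinset, f v =
      ∑ τ : k, f (pt τ) + f (infty k) := by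
  classical
  have h1 : (places_fin (k := k) (K := RatFunc k) 1).toFinset =
      insert (infty k) (Finset.univ.image (pt (k := k))) := by
    ext v
    rw [Set.Finite.mem_toFinset, Finset.mem_insert, Finset.mem_image]
    constructor
    · intro h
      have hd : v.deg = 1 := le_antisymm h (deg_pos' v)
      by_cases hv : v = infty k
      · exact Or.inl hv
      · obtain ⟨τ, hτ⟩ := pt_surj hv hd
        exact Or.inr ⟨τ, Finset.mem_univ _, hτ⟩
    · rintro (h | ⟨τ, -, h⟩)
      · rw [h]
        exact (inf_deg infty_X).le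
      · rw [← h]
        exact (pt_deg τ).le
  rw [h1, Finset.sum_insert, Finset.sum_image, add_comm]
  · intro τ _ σ _ h
    exact pt_inj h
  · rw [Finset.mem_image]
    rintro ⟨τ, -, h⟩
    exact pt_ne τ h

theorem red_pt (τ : k) (p : k[X]) :
    (pt τ).red (A p) = algebraMap k (pt τ).RF (p.eval τ) := by
  have h1 : (pt τ).red (A (X - C τ)) = 0 := by
    rw [(pt τ).red_eq_zero_iff (fin_reg (pt_fin τ) _)]
    exact Or.inr (pt_ord τ)
  have h2 : phi (pt_fin τ) (X - C τ) = 0 := by rw [phi_eq, h1]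
  have h3 : (pt τ).red RatFunc.X = algebraMap k (pt τ).RF τ := by
    unfold phi at h2
    rw [map_sub, aeval_X, aeval_C, sub_eq_zero] at h2
    exact h2
  rw [← phi_eq (pt_fin τ)]
  unfold phi
  rw [h3, aeval_algebraMap_apply]
  rfl

theorem bij_of_deg {v : Place k (RatFunc k)} (h : v.deg = 1) :
    Function.Bijective (algebraMap k v.RF) := by
  refine ⟨(algebraMap k v.RF).injective, ?_⟩
  have h1 : finrank k v.RF = 1 := h
  intro x
  obtain ⟨c, hc⟩ := (finrank_eq_one_iff_of_nonzero' (1 : v.RF) one_ne_zero).1 h1 x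
  exact ⟨c, by rw [← hc, Algebra.smul_def, mul_one]⟩

theorem card_sol_bij {E : Type} [Field E] (φ : k →+* E) (hφ : Function.Bijective φ) (a b : k) :
    Nat.card (Sol E (φ a) (φ b)) = Nat.card (Sol k a b) := by
  symm
  refine Nat.card_congr (Equiv.ofBijective
    (fun P => ⟨(φ P.1.1, φ P.1.2), by
      have := congrArg φ P.2
      simpa using this⟩) ⟨?_, ?_⟩)
  · intro P Q h
    have h1 := congrArg (fun z => z.1) h
    simp only [Prod.mk.injEq] at h1
    exact Subtype.ext (Prod.ext (hφ.1 h1.1) (hφ.1 h1.2))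
  · rintro ⟨⟨x, y⟩, hxy⟩
    obtain ⟨x', rfl⟩ := hφ.2 x
    obtain ⟨y', rfl⟩ := hφ.2 y
    refine ⟨⟨(x', y'), ?_⟩, rfl⟩
    apply hφ.1
    simpa using hxy

theorem ringChar_ne_two (h6 : (6 : k) ≠ 0) : ringChar k ≠ 2 := by
  intro h
  apply h6
  have h1 := ringChar.Nat.cast_ringChar (R := k)
  rw [h] at h1
  have h2 : (2 : k) = 0 := by exact_mod_cast h1
  linear_combination 3 * h2

/-- the trace at a place of degree one -/
theorem trace_deg_one [Fintype k] [DecidableEq k] (h6 : (6 : k) ≠ 0) {v : Place k (RatFunc k)}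
    (hd : v.deg = 1) {a b c : RatFunc k} (hab : a ≠ 0 ∨ b ≠ 0) (hc : IsMinScale v a b c) {α β : k}
    (hα : v.red (c ^ 4 * a) = algebraMap k v.RF α) (hβ : v.red (c ^ 6 * b) = algebraMap k v.RF β) :
    trace v a b = -∑ x : k, quadraticChar k (x ^ 3 + α * x + β) := by
  have h1 := bij_of_deg hd
  rw [trace_of_min v hab hc, hα, hβ, card_sol_bij (algebraMap k v.RF) h1,
    ← Nat.card_congr (Equiv.ofBijective _ h1)]
  have h2 := card_points (ringChar_ne_two h6) (fun x => x ^ 3 + α * x + β)
  have h3 : (Nat.card (Sol k α β) : ℤ) = _ := h2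
  rw [h3, Nat.card_eq_fintype_card]
  ring

end Pool.Agent.Y701.QF
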