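import Mathlib

/-!
Sums of the quadratic character over the values of a quadratic polynomial.
-/

set_option autoImplicit false
set_option linter.all false
set_option maxHeartbeats 1000000

namespace Pool.Agent.Y701.QF

open Polynomial

section charsum

variable {F : Type} [Field F] [Fintype F] [DecidableEq F]

variable {F : Type} [Field F] [Fintype F] [DecidableEq F]

theorem sum_char_sq_sub (hF : ringChar F ≠ 2) {c : F} (hc : c ≠ 0) :
    ∑ x : F, quadraticChar F (x ^ 2 - c) = -1 := by
  have h1 : ∑ x : F, quadraticChar F (x ^ 2 - c)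
      = ∑ y : F, (quadraticChar F y + 1) * quadraticChar F (y - c) := by
    rw [← Finset.sum_fiberwise (s := Finset.univ) (g := fun x : F => x ^ 2)]
    refine Finset.sum_congr rfl fun y _ => ?_
    rw [← quadraticChar_card_sqrts hF y]
    rw [Finset.sum_congr (g := fun _ => quadraticChar F (y - c)) rfl]
    · rw [Finset.sum_const, nsmul_eq_mul]
      congr 2
      have : ({x : F | x ^ 2 = y} : Set F).toFinset = Finset.univ.filter (fun x : F => x ^ 2 = y) := by
        ext x; simp
      rw [this]
    · intro x hx
      simp only [Finset.mem_filter, Finset.mem_univ, true_and] at hx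
      rw [hx]
  rw [h1]
  simp only [add_mul, one_mul, Finset.sum_add_distrib]
  have h2 : ∑ y : F, quadraticChar F (y - c) = 0 := by
    rw [← quadraticChar_sum_zero hF]
    exact Equiv.sum_comp (Equiv.subRight c) (fun y => quadraticChar F y)
  have h3 : ∑ y : F, quadraticChar F y * quadraticChar F (y - c) = -1 := by
    rw [← Equiv.sum_comp (Equiv.mulLeft₀ c hc)]
    have hneg : quadraticChar F (-1) * quadraticChar F (-1) = 1 := by
      rw [← map_mul]; simp
    have h4 : ∀ z : F, quadraticChar F (Equiv.mulLeft₀ c hc z) * quadraticChar F (Equiv.mulLeft₀ c hc z - c)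
        = quadraticChar F (-1) * (quadraticChar F z * quadraticChar F (1 - z)) := by
      intro z
      simp only [Equiv.mulLeft₀_apply]
      have h5 : quadraticChar F c * quadraticChar F c = 1 := by
        rw [← sq]; exact quadraticChar_sq_one hc
      have h6 : c * z - c = c * (-1 * (1 - z)) := by ring
      rw [h6, map_mul, map_mul, map_mul]
      linear_combination (quadraticChar F z * quadraticChar F (-1) * quadraticChar F (1 - z)) * h5
    simp only [h4]
    rw [← Finset.mul_sum]
    have h7 := jacobiSum_nontrivial_inv (quadraticChar_ne_one hF)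
    rw [(quadraticChar_isQuadratic F).inv] at h7
    unfold jacobiSum at h7
    rw [h7]
    linear_combination (-1) * hneg
  rw [h2, h3]
  norm_num

theorem sum_char_linear (hF : ringChar F ≠ 2) (a b : F) (ha : a ≠ 0) :
    ∑ x : F, quadraticChar F (a * x + b) = 0 := by
  have h1 : ∑ x : F, quadraticChar F (a * x + b) = ∑ y : F, quadraticChar F (y + b) :=
    Fintype.sum_equiv (Equiv.mulLeft₀ a ha) _ _ (fun x => rfl)
  rw [h1, ← quadraticChar_sum_zero hF]
  exact Equiv.sum_comp (Equiv.addRight b) (fun y => quadraticChar F y)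

theorem sum_char_quadratic (hF : ringChar F ≠ 2) (a b c : F) (ha : a ≠ 0)
    (hΔ : b ^ 2 - 4 * a * c ≠ 0) :
    ∑ x : F, quadraticChar F (a * x ^ 2 + b * x + c) = -quadraticChar F a := by
  have h2 : (2 : F) ≠ 0 := Ring.two_ne_zero hF
  have h1 : ∀ x : F, quadraticChar F (a * x ^ 2 + b * x + c) =
      quadraticChar F a * quadraticChar F ((2 * a * x + b) ^ 2 - (b ^ 2 - 4 * a * c)) := by
    intro x
    have h3 : (2 * a * x + b) ^ 2 - (b ^ 2 - 4 * a * c) = (2 ^ 2 * a) * (a * x ^ 2 + b * x + c) := by ring
    have h5 : quadraticChar F a * quadraticChar F a = 1 := by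
      rw [← sq]; exact quadraticChar_sq_one ha
    have h6 : quadraticChar F (2 ^ 2) = 1 := quadraticChar_sq_one' h2
    rw [h3, map_mul, map_mul, h6, one_mul, ← mul_assoc, h5, one_mul]
  rw [Finset.sum_congr rfl fun x _ => h1 x, ← Finset.mul_sum]
  have h3 : ∑ x : F, quadraticChar F ((2 * a * x + b) ^ 2 - (b ^ 2 - 4 * a * c)) =
      ∑ y : F, quadraticChar F (y ^ 2 - (b ^ 2 - 4 * a * c)) := by
    have h4 : ∑ x : F, quadraticChar F ((2 * a * x + b) ^ 2 - (b ^ 2 - 4 * a * c)) =
        ∑ y : F, quadraticChar F ((y + b) ^ 2 - (b ^ 2 - 4 * a * c)) :=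
      Fintype.sum_equiv (Equiv.mulLeft₀ (2 * a) (mul_ne_zero h2 ha)) _ _ (fun x => rfl)
    rw [h4]
    exact Equiv.sum_comp (Equiv.addRight b) (fun y => quadraticChar F (y ^ 2 - (b ^ 2 - 4 * a * c)))
  rw [h3, sum_char_sq_sub hF hΔ]
  ring


theorem quad_sum (hF : ringChar F ≠ 2) (a b c : F) :
    ∑ x : F, quadraticChar F (a * x ^ 2 + 2 * b * x + c) =
      if a = 0 then (if b = 0 then (Fintype.card F : ℤ) * quadraticChar F c else 0)
      else (if b ^ 2 - a * c = 0 then ((Fintype.card F : ℤ) - 1) * quadraticChar F a
        else -quadraticChar F a) := by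
  have h2 : (2 : F) ≠ 0 := Ring.two_ne_zero hF
  split_ifs with ha hb hd
  · subst ha; subst hb
    simp
  · subst ha
    have h3 := sum_char_linear hF (2 * b) c (mul_ne_zero h2 hb)
    rw [← h3]
    refine Finset.sum_congr rfl fun x _ => ?_
    congr 1
    ring
  · have h3 : ∀ x : F, quadraticChar F (a * x ^ 2 + 2 * b * x + c) =
        quadraticChar F a * (if x = -b / a then 0 else 1) := by
      intro x
      have e : a * x ^ 2 + 2 * b * x + c = a * (x + b / a) ^ 2 := by
        have h4 : c = b ^ 2 / a := by
          rw [eq_div_iff ha]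
          linear_combination -hd
        rw [h4]
        field_simp
        ring
      rw [e, map_mul, map_pow]
      split_ifs with hx
      · have : x + b / a = 0 := by rw [hx]; ring
        rw [this, MulChar.map_zero, zero_pow two_ne_zero]
      · have h5 : x + b / a ≠ 0 := by
          intro h6
          apply hx
          have : x = -(b / a) := eq_neg_of_add_eq_zero_left h6
          rw [this]; ring
        rw [← map_pow, quadraticChar_sq_one' h5]
    rw [Finset.sum_congr rfl fun x _ => h3 x, ← Finset.mul_sum, Finset.sum_ite,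
      Finset.sum_const_zero, zero_add, Finset.sum_const, nsmul_eq_mul, mul_one, mul_comm]
    congr 1
    have h4 : (Finset.univ.filter fun x : F => ¬ x = -b / a) = Finset.univ.erase (-b / a) := by
      ext x
      simp
    rw [h4, Finset.card_erase_of_mem (Finset.mem_univ _), Finset.card_univ,
      Nat.cast_sub Fintype.card_pos, Nat.cast_one]
  · have h3 := sum_char_quadratic hF a (2 * b) c ha (by
      intro h4
      apply hd
      have h5 : (4 : F) ≠ 0 := by
        have : (4 : F) = 2 * 2 := by norm_num
        rw [this]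
        exact mul_ne_zero h2 h2
      apply mul_left_cancel₀ h5
      linear_combination h4)
    exact h3

end charsum

section field

theorem char_ne_two {F : Type} [Field F] (h2 : (2 : F) ≠ 0) : ringChar F ≠ 2 := by
  intro h
  apply h2
  have := ringChar.Nat.cast_ringChar (R := F)
  rw [h] at this
  exact_mod_cast this

theorem two_ne_ext {F F' : Type} [Field F] [Field F'] [Algebra F F'] (h2 : (2 : F) ≠ 0) :
    (2 : F') ≠ 0 := by
  have : (2 : F') = algebraMap F F' 2 := by rw [map_ofNat]
  rw [this]
  exact (_root_.map_ne_zero _).2 h2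

/-- the quadratic character of an extension at an element of the small field -/
theorem chi_ext {F F' : Type} [Field F] [Fintype F] [DecidableEq F] [Field F'] [Fintype F']
    [DecidableEq F'] [Algebra F F'] (h2 : (2 : F) ≠ 0) {c : F} (hc0 : c ≠ 0) :
    quadraticChar F' (algebraMap F F' c) = quadraticChar F c ^ Module.finrank F F' := by
  set d := Module.finrank F F' with hd
  have hchar := char_ne_two h2
  have h2R : (2 : F') ≠ 0 := two_ne_ext h2
  have hcharR := char_ne_two h2R
  have hcb : algebraMap F F' c ≠ 0 := (_root_.map_ne_zero _).2 hc0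
  have hinj : ∀ x y : ℤ, (x = 1 ∨ x = -1) → (y = 1 ∨ y = -1) → (x : F') = (y : F') → x = y := by
    intro x y hx hy hxy
    rcases hx with rfl | rfl <;> rcases hy with rfl | rfl
    · rfl
    · exfalso
      apply h2R
      push_cast at hxy
      linear_combination hxy
    · exfalso
      apply h2R
      push_cast at hxy
      linear_combination -hxy
    · rfl
  have hk : quadraticChar F c = 1 ∨ quadraticChar F c = -1 := quadraticChar_dichotomy hc0
  have hkd : quadraticChar F c ^ d = 1 ∨ quadraticChar F c ^ d = -1 := by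
    rcases hk with h | h
    · left; rw [h, one_pow]
    · rw [h]; exact neg_one_pow_eq_or ℤ d
  apply hinj _ _ (quadraticChar_dichotomy hcb) hkd
  rw [quadraticChar_eq_pow_of_char_ne_two' hcharR]
  have hq : Fintype.card F' = Fintype.card F ^ d := Module.card_eq_pow_finrank
  have hoddq := FiniteField.odd_card_of_char_ne_two hchar
  have hkp := quadraticChar_eq_pow_of_char_ne_two' hchar c
  set q := Fintype.card F with hqdef
  have hsplit : q ^ d / 2 = q / 2 * ∑ i ∈ Finset.range d, q ^ i := by
    obtain ⟨j, hj⟩ : ∃ j, q = 2 * j + 1 := ⟨q / 2, by omega⟩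
    have hj2 : q / 2 = j := by omega
    have hj1 : q - 1 = 2 * j := by omega
    have h4 : (q - 1) * ∑ i ∈ Finset.range d, q ^ i = q ^ d - 1 := by
      rw [mul_comm]
      exact geom_sum_mul_of_one_le (by omega) d
    rw [hj1] at h4
    have hqo : (q ^ d) % 2 = 1 := Nat.odd_iff.1 ((Nat.odd_iff.2 hoddq).pow)
    rw [hj2]
    have h5 : 2 * (j * ∑ i ∈ Finset.range d, q ^ i) = q ^ d - 1 := by
      rw [← h4]; ring
    omega
  have e3 : (algebraMap F F' c) ^ (q / 2) = ((quadraticChar F c : ℤ) : F') := by
    rw [← map_pow, ← hkp, map_intCast]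
  rw [hq, hsplit, pow_mul, e3]
  have hpar : ∀ n : ℕ, (∑ i ∈ Finset.range n, q ^ i) % 2 = n % 2 := by
    intro n
    induction n with
    | zero => simp
    | succ n ih =>
      have h5 : (q ^ n) % 2 = 1 := Nat.odd_iff.1 ((Nat.odd_iff.2 hoddq).pow)
      rw [Finset.sum_range_succ]
      omega
  rcases hk with h | h
  · rw [h]; simp
  · rw [h]
    push_cast
    rw [neg_one_pow_eq_pow_mod_two (n := ∑ i ∈ Finset.range d, q ^ i), hpar d,
      ← neg_one_pow_eq_pow_mod_two]
end field

end Pool.Agent.Y701.QF
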